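import Mathlib
import Pool.Agent.J4H56.NA.Tail

/-!
# MP_68df70_lc: the average `N`-adic complexity of finite sequences is `n / 2 + O(1)`

Definitions (in `Pool/Agent/J4H56/NA/Seq.lean`):

* `part N b m = Σ_{i<m} b_i N^i`;
* `IsFrac N b f g`: `g > 0`, `f` and `g` are coprime and `N ^ m ∣ g * part N b m - f` for all `m`,
  that is `g · Σ b_i N^i = f` in `ℤ_N = lim ℤ / N^m`: the `N`-adic integer of `b` is `f / g`;
* `Vals N n a`: the numbers `log_N max(|f|, |g|)` for all infinite sequences `b : ℕ → Fin N` with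
  `b_i = a_i` for `i < n` and all `f`, `g` with `IsFrac N b f g`;
* `cplx N n a = sInf (Vals N n a)`, the `N`-adic complexity of the finite sequence `a` (part 1 of
  the theorem: this is a minimum);
* `Efin N n`: the average of `cplx N n a` over all `N ^ n` sequences `a` of length `n`.
-/

set_option autoImplicit false

open Finset

namespace Pool.Agent.Results.MP_68df70_lc.HalfLength

open Pool.Agent.J4H56.NA

lemma up {N : ℕ} (hN : 2 ≤ N) (n : ℕ) :
    Efin N n ≤ n / 2 + Real.logb N (5 * (2 ^ N.primeFactors.card + 1)) := by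
  have h := (main_bounds hN (jac_kanold hN) n).2
  have h1 : 1 ≤ 2 ^ N.primeFactors.card := Nat.one_le_two_pow
  have e : (((2 ^ N.primeFactors.card - 1 : ℕ) : ℝ) + 2) = 2 ^ N.primeFactors.card + 1 := by
    rw [Nat.cast_sub h1]
    push_cast
    ring
  rw [e] at h
  exact h

lemma two_pow_le {N : ℕ} (hN : 2 ≤ N) : 2 ^ N.primeFactors.card ≤ N := by
  calc 2 ^ N.primeFactors.card = ∏ _p ∈ N.primeFactors, 2 := by rw [Finset.prod_const]
    _ ≤ ∏ p ∈ N.primeFactors, p :=
        Finset.prod_le_prod' fun p hp => (Nat.prime_of_mem_primeFactors hp).two_le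
    _ ≤ N := Nat.le_of_dvd (by omega) (Nat.prod_primeFactors_dvd N)

lemma up_four {N : ℕ} (hN : 2 ≤ N) (n : ℕ) : Efin N n ≤ n / 2 + 4 := by
  have hN1 : (1 : ℝ) < N := by
    have : 1 < N := by omega
    exact_mod_cast this
  have hN2 : (2 : ℝ) ≤ N := by exact_mod_cast hN
  refine (up hN n).trans ?_
  gcongr
  rw [Real.logb_le_iff_le_rpow hN1 (by positivity)]
  have h1 : (2 : ℝ) ^ N.primeFactors.card ≤ N := by exact_mod_cast two_pow_le hN
  have h2 : (N : ℝ) ^ (4 : ℝ) = (N : ℝ) ^ 4 := by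
    rw [← Real.rpow_natCast]; norm_num
  rw [h2]
  nlinarith [sq_nonneg ((N : ℝ) ^ 2 - 4), mul_self_nonneg ((N : ℝ) - 2)]

lemma unif {ε : ℝ} (hε : 0 < ε) : ∃ N0 : ℕ, ∀ N : ℕ, N0 ≤ N → ∀ n : ℕ,
    |Efin N n - n / 2| ≤ ε := by
  obtain ⟨k, hk⟩ := exists_nat_gt (2 / ε)
  have hk0 : (0 : ℝ) < k := lt_trans (by positivity) hk
  set C : ℝ := Real.log 10 + 2 ^ k * Real.log 2 with hC
  obtain ⟨N1, hN1⟩ := exists_nat_gt (Real.exp (2 * C / ε))
  refine ⟨max N1 2, fun N hN n => ?_⟩
  have hN2 : 2 ≤ N := le_trans (le_max_right _ _) hN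
  have hN1' : (N1 : ℝ) ≤ N := by exact_mod_cast le_trans (le_max_left _ _) hN
  have hN1r : (1 : ℝ) < N := by
    have : 1 < N := by omega
    exact_mod_cast this
  have hN0 : (0 : ℝ) < N := by linarith
  have hlN : 0 < Real.log N := Real.log_pos hN1r
  have hl2 : 0 < Real.log 2 := Real.log_pos (by norm_num)
  have hl10 : 0 < Real.log 10 := Real.log_pos (by norm_num)
  have hCN : 2 * C / ε ≤ Real.log N := by
    rw [Real.le_log_iff_exp_le hN0]
    linarith
  have hCN' : C ≤ ε / 2 * Real.log N := by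
    rw [div_le_iff₀ hε] at hCN
    linarith
  -- the logarithm of the constant
  have hlog : Real.logb N (5 * (2 ^ N.primeFactors.card + 1)) ≤ ε := by
    have h1 : (1 : ℝ) ≤ 2 ^ N.primeFactors.card := one_le_pow₀ (by norm_num)
    have h2 : Real.logb N (5 * (2 ^ N.primeFactors.card + 1)) ≤
        Real.logb N (10 * 2 ^ N.primeFactors.card) := by
      apply Real.logb_le_logb_of_le hN1r (by positivity)
      linarith
    refine h2.trans ?_
    have h3 : Real.logb N (10 * 2 ^ N.primeFactors.card) =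
        (Real.log 10 + N.primeFactors.card * Real.log 2) / Real.log N := by
      rw [Real.logb, Real.log_mul (by norm_num) (by positivity), Real.log_pow]
    rw [h3, div_le_iff₀ hlN]
    have h4 := omega_bound hN2 k
    have h5 : Real.logb 2 N = Real.log N / Real.log 2 := rfl
    rw [h5, le_div_iff₀ hl2] at h4
    -- `ω log 2 ≤ 2^k log 2 + log N / k`
    have h6 : (N.primeFactors.card : ℝ) * Real.log 2 ≤ 2 ^ k * Real.log 2 + Real.log N / k := by
      have : (N.primeFactors.card - (2 : ℝ) ^ k) * Real.log 2 ≤ Real.log N / k := by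
        rw [le_div_iff₀ hk0]
        linarith
      linarith
    have h7 : Real.log N / k ≤ ε / 2 * Real.log N := by
      rw [div_le_iff₀ hk0]
      have : 1 ≤ ε / 2 * k := by
        rw [div_lt_iff₀ hε] at hk
        linarith
      nlinarith
    linarith
  have hlow : Real.logb N (2 * √2) ≤ ε := by
    refine le_trans ?_ hlog
    apply Real.logb_le_logb_of_le hN1r (by positivity)
    have h1 : (1 : ℝ) ≤ 2 ^ N.primeFactors.card := one_le_pow₀ (by norm_num)
    have h3 : √2 ≤ 3 / 2 := by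
      rw [Real.sqrt_le_left (by norm_num)]; norm_num
    linarith
  rw [abs_le]
  constructor
  · have := lower hN2 n
    linarith
  · have := up hN2 n
    linarith

/-- **Average `N`-adic complexity of finite sequences**, `E_n = n / 2 + O(1)`:
(1) the complexity of a finite sequence is a minimum;
(2) `n/2 - log_N (2√2) ≤ E_n ≤ n/2 + log_N (5 (2^ω(N) + 1))`, with `ω(N)` the number of distinct
primes dividing `N`, for all `N ≥ 2` and all `n`;
(3) hence `n/2 - 1 ≤ E_n ≤ n/2 + 4` for all `N ≥ 2` and all `n`;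
(4) and `E_n - n/2 → 0` as `N → ∞`, uniformly in `n`. -/
theorem result :
    (∀ N n : ℕ, 2 ≤ N → ∀ a : Fin n → Fin N, IsLeast (Vals N n a) (cplx N n a)) ∧
    (∀ N n : ℕ, 2 ≤ N →
      (n : ℝ) / 2 - Real.logb N (2 * √2) ≤ Efin N n ∧
      Efin N n ≤ n / 2 + Real.logb N (5 * (2 ^ N.primeFactors.card + 1))) ∧
    (∀ N n : ℕ, 2 ≤ N → (n : ℝ) / 2 - 1 ≤ Efin N n ∧ Efin N n ≤ n / 2 + 4) ∧
    (∀ ε : ℝ, 0 < ε → ∃ N0 : ℕ, ∀ N : ℕ, N0 ≤ N → ∀ n : ℕ, |Efin N n - n / 2| ≤ ε) := by
  refine ⟨fun N n hN a => ?_, fun N n hN => ⟨lower hN n, up hN n⟩,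
    fun N n hN => ⟨lower_one hN n, up_four hN n⟩, fun ε hε => unif hε⟩
  rw [cplx_eq hN]; exact isLeast_cplx hN a

end Pool.Agent.Results.MP_68df70_lc.HalfLength
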